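import Pool.Agent.Helper13.FF.AT0

/-!
Project FF, block AT: the abstract theorem (pure group theory).
-/

set_option autoImplicit false

open scoped commutatorElement

namespace Pool.Agent.FFS

/-- A nontrivial finite `ℓ`-group `K` with a group `Q` of automorphisms of order a power of `ℓ` has a
proper subgroup which contains the commutators, the `ℓ`-th powers and all `q x * x⁻¹`. -/
lemma exists_proper {K : Type} [Group K] [Finite K] {ℓ : ℕ} (hℓ : ℓ.Prime) (hK : IsPGroup ℓ K)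
    (hne : ∃ x : K, x ≠ 1) (Q : Subgroup (MulAut K)) (hQ : IsPGroup ℓ Q) :
    ∃ P : Subgroup K, P ≠ ⊤ ∧ (∀ x y : K, x * y * x⁻¹ * y⁻¹ ∈ P) ∧ (∀ x : K, x ^ ℓ ∈ P) ∧
      ∀ q ∈ Q, ∀ x : K, q x * x⁻¹ ∈ P := by
  classical
  have : Fact ℓ.Prime := ⟨hℓ⟩
  have : Finite (MulAut K) := by
    have : Function.Injective (fun e : MulAut K => (e : K → K)) := fun e f h => by
      ext x
      exact congrFun h x
    exact Finite.of_injective _ this
  obtain ⟨x₀, hx₀⟩ := hne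
  let M := K ⋊[Q.subtype] Q
  have hM : IsPGroup ℓ M := by
    obtain ⟨a, ha⟩ := IsPGroup.iff_card.1 hK
    obtain ⟨b, hb⟩ := IsPGroup.iff_card.1 hQ
    refine IsPGroup.of_card (n := a + b) ?_
    rw [SemidirectProduct.card, ha, hb, pow_add]
  have hfin : Finite M := by
    refine Nat.finite_of_card_ne_zero ?_
    rw [SemidirectProduct.card]
    exact mul_ne_zero Nat.card_pos.ne' Nat.card_pos.ne'
  have hnil : Group.IsNilpotent M := hM.isNilpotent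
  let N : Subgroup M := (SemidirectProduct.inl : K →* M).range
  have hNn : N.Normal := by
    have : N = (SemidirectProduct.rightHom : M →* Q).ker := SemidirectProduct.range_inl_eq_ker_rightHom
    rw [this]
    infer_instance
  have hN1 : ¬ N ≤ ⁅N, (⊤ : Subgroup M)⁆ := by
    intro hcon
    have h1 : ∀ n : ℕ, N ≤ Subgroup.lowerCentralSeries (⊤ : Subgroup M) n := by
      intro n
      induction n with
      | zero => rw [Subgroup.lowerCentralSeries_zero]; exact le_top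
      | succ n ih =>
        rw [Subgroup.lowerCentralSeries_succ]
        exact hcon.trans (Subgroup.commutator_mono ih le_rfl)
    obtain ⟨n, hn⟩ := Subgroup.nilpotent_iff_lowerCentralSeries.1 hnil
    have h2 : (SemidirectProduct.inl x₀ : M) ∈ (⊥ : Subgroup M) := by
      rw [← hn]
      exact h1 n ⟨x₀, rfl⟩
    rw [Subgroup.mem_bot] at h2
    apply hx₀
    have h3 : (SemidirectProduct.inl x₀ : M) = SemidirectProduct.inl 1 := by rw [h2, map_one]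
    exact SemidirectProduct.inl_injective h3
  let K₁ : Subgroup K := (⁅N, (⊤ : Subgroup M)⁆).comap (SemidirectProduct.inl : K →* M)
  have hK1 : K₁ ≠ ⊤ := by
    intro hcon
    apply hN1
    rintro _ ⟨x, rfl⟩
    have : x ∈ K₁ := by rw [hcon]; trivial
    exact this
  have hcomm : ∀ x y : K, x * y * x⁻¹ * y⁻¹ ∈ K₁ := by
    intro x y
    have h1 : ⁅(SemidirectProduct.inl x : M), (SemidirectProduct.inl y : M)⁆ ∈ ⁅N, (⊤ : Subgroup M)⁆ :=
      Subgroup.commutator_mem_commutator ⟨x, rfl⟩ trivial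
    show (SemidirectProduct.inl (x * y * x⁻¹ * y⁻¹) : M) ∈ ⁅N, (⊤ : Subgroup M)⁆
    simpa [commutatorElement_def] using h1
  have hq : ∀ q ∈ Q, ∀ x : K, q x * x⁻¹ ∈ K₁ := by
    intro q hq x
    have h1 : ⁅(SemidirectProduct.inl x : M), (SemidirectProduct.inr ⟨q, hq⟩ : M)⁆ ∈ ⁅N, (⊤ : Subgroup M)⁆ :=
      Subgroup.commutator_mem_commutator ⟨x, rfl⟩ trivial
    have h2 : (⁅(SemidirectProduct.inl x : M), (SemidirectProduct.inr ⟨q, hq⟩ : M)⁆)⁻¹ ∈ ⁅N, (⊤ : Subgroup M)⁆ :=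
      inv_mem h1
    show (SemidirectProduct.inl (q x * x⁻¹) : M) ∈ ⁅N, (⊤ : Subgroup M)⁆
    have h3 : (SemidirectProduct.inl (q x) : M) =
        SemidirectProduct.inr ⟨q, hq⟩ * SemidirectProduct.inl x * SemidirectProduct.inr (⟨q, hq⟩ : Q)⁻¹ :=
      SemidirectProduct.inl_aut (φ := Q.subtype) ⟨q, hq⟩ x
    rw [map_mul, h3]
    rw [commutatorElement_def, mul_inv_rev, mul_inv_rev, mul_inv_rev, inv_inv, inv_inv] at h2
    rw [map_inv, map_inv]
    simpa [mul_assoc] using h2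
  have hKn : K₁.Normal := by
    refine ⟨fun n hn g => ?_⟩
    have h1 := K₁.mul_mem (hcomm g n) hn
    simpa [mul_assoc] using h1
  letI : CommGroup (K ⧸ K₁) :=
    { (inferInstance : Group (K ⧸ K₁)) with
      mul_comm := by
        intro a b
        obtain ⟨x, rfl⟩ := QuotientGroup.mk_surjective a
        obtain ⟨y, rfl⟩ := QuotientGroup.mk_surjective b
        rw [← QuotientGroup.mk_mul, ← QuotientGroup.mk_mul, QuotientGroup.eq]
        have h1 := hcomm y⁻¹ x⁻¹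
        simpa [mul_assoc] using h1 }
  let pw : (K ⧸ K₁) →* (K ⧸ K₁) := powMonoidHom ℓ
  refine ⟨pw.range.comap (QuotientGroup.mk' K₁), ?_, ?_, ?_, ?_⟩
  · intro hcon
    have h1 : Function.Surjective pw := by
      intro b
      obtain ⟨x, rfl⟩ := QuotientGroup.mk_surjective b
      have h2 : x ∈ pw.range.comap (QuotientGroup.mk' K₁) := by rw [hcon]; trivial
      exact h2
    have h2 : Function.Injective pw := Finite.injective_iff_surjective.2 h1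
    have h3 : IsPGroup ℓ (K ⧸ K₁) := hK.to_quotient K₁
    have h4 : Nontrivial (K ⧸ K₁) := by
      by_contra hcon
      rw [not_nontrivial_iff_subsingleton] at hcon
      apply hK1
      rw [eq_top_iff]
      intro x _
      have h5 : (QuotientGroup.mk x : K ⧸ K₁) = 1 := Subsingleton.elim _ _
      exact (QuotientGroup.eq_one_iff x).1 h5
    have h5 : ℓ ∣ Nat.card (K ⧸ K₁) := by
      obtain ⟨n, hn⟩ := IsPGroup.iff_card.1 h3
      rcases n with _ | n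
      · rw [pow_zero] at hn
        have := Finite.one_lt_card (α := K ⧸ K₁)
        omega
      · rw [hn, pow_succ]
        exact dvd_mul_left _ _
    obtain ⟨b, hb⟩ := exists_prime_orderOf_dvd_card' ℓ h5
    have h6 : pw b = pw 1 := by
      show b ^ ℓ = 1 ^ ℓ
      rw [one_pow, ← hb]
      exact pow_orderOf_eq_one b
    have h7 : b = 1 := h2 h6
    rw [h7, orderOf_one] at hb
    exact hℓ.one_lt.ne hb
  · intro x y
    have h1 : (QuotientGroup.mk' K₁) (x * y * x⁻¹ * y⁻¹) = 1 := (QuotientGroup.eq_one_iff _).2 (hcomm x y)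
    rw [Subgroup.mem_comap, h1]
    exact one_mem _
  · intro x
    rw [Subgroup.mem_comap, map_pow]
    exact ⟨_, rfl⟩
  · intro q hq' x
    have h1 : (QuotientGroup.mk' K₁) (q x * x⁻¹) = 1 := (QuotientGroup.eq_one_iff _).2 (hq q hq' x)
    rw [Subgroup.mem_comap, h1]
    exact one_mem _

/-- the next term of the series -/
def nextK {G A : Type} [Group G] [Group A] (ℓ : ℕ) (ρ : G →* A) (G' : Subgroup G) (K : Subgroup A) : Subgroup A :=
  Subgroup.closure ({z | ∃ x ∈ K, ∃ y ∈ K, z = x * y * x⁻¹ * y⁻¹} ∪ {z | ∃ x ∈ K, z = x ^ ℓ} ∪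
    {z | ∃ g ∈ G', ∃ x ∈ K, z = ρ g * x * (ρ g)⁻¹ * x⁻¹})

section

variable {G A : Type} [Group G] [Group A] {ℓ : ℕ} {ρ : G →* A} {G' : Subgroup G} {K : Subgroup A}

lemma nextK_comm {x y : A} (hx : x ∈ K) (hy : y ∈ K) : x * y * x⁻¹ * y⁻¹ ∈ nextK ℓ ρ G' K :=
  Subgroup.subset_closure (Or.inl (Or.inl ⟨x, hx, y, hy, rfl⟩))

lemma nextK_pow {x : A} (hx : x ∈ K) : x ^ ℓ ∈ nextK ℓ ρ G' K :=
  Subgroup.subset_closure (Or.inl (Or.inr ⟨x, hx, rfl⟩))

lemma nextK_conj {g : G} (hg : g ∈ G') {x : A} (hx : x ∈ K) :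
    ρ g * x * (ρ g)⁻¹ * x⁻¹ ∈ nextK ℓ ρ G' K :=
  Subgroup.subset_closure (Or.inr ⟨g, hg, x, hx, rfl⟩)

lemma nextK_le (hK : ∀ g : G, ∀ x ∈ K, ρ g * x * (ρ g)⁻¹ ∈ K) : nextK ℓ ρ G' K ≤ K := by
  refine (Subgroup.closure_le _).2 ?_
  rintro z ((⟨x, hx, y, hy, rfl⟩ | ⟨x, hx, rfl⟩) | ⟨g, -, x, hx, rfl⟩)
  · exact K.mul_mem (K.mul_mem (K.mul_mem hx hy) (K.inv_mem hx)) (K.inv_mem hy)
  · exact K.pow_mem hx _
  · exact K.mul_mem (hK g x hx) (K.inv_mem hx)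

lemma nextK_stable (hG : G'.Normal) (hK : ∀ g : G, ∀ x ∈ K, ρ g * x * (ρ g)⁻¹ ∈ K) (g : G) :
    ∀ x ∈ nextK ℓ ρ G' K, ρ g * x * (ρ g)⁻¹ ∈ nextK ℓ ρ G' K := by
  intro x hx
  have h1 : nextK ℓ ρ G' K ≤ (nextK ℓ ρ G' K).comap (MulAut.conj (ρ g)).toMonoidHom := by
    refine (Subgroup.closure_le _).2 ?_
    rintro z ((⟨x, hx, y, hy, rfl⟩ | ⟨x, hx, rfl⟩) | ⟨g', hg', x, hx, rfl⟩)
    · change ρ g * (x * y * x⁻¹ * y⁻¹) * (ρ g)⁻¹ ∈ nextK ℓ ρ G' K
      have := nextK_comm (ℓ := ℓ) (ρ := ρ) (G' := G') (hK g x hx) (hK g y hy)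
      convert this using 1
      group
    · change ρ g * x ^ ℓ * (ρ g)⁻¹ ∈ nextK ℓ ρ G' K
      have := nextK_pow (ℓ := ℓ) (ρ := ρ) (G' := G') (hK g x hx)
      rwa [conj_pow] at this
    · change ρ g * (ρ g' * x * (ρ g')⁻¹ * x⁻¹) * (ρ g)⁻¹ ∈ nextK ℓ ρ G' K
      have := nextK_conj (ℓ := ℓ) (ρ := ρ) (G' := G') (hG.conj_mem g' hg' g) (hK g x hx)
      convert this using 1
      rw [map_mul, map_mul, map_inv]
      group
  exact h1 hx

lemma nextK_ne [Finite K] (hℓ : ℓ.Prime) (hp : IsPGroup ℓ K) (hne : ∃ x ∈ K, x ≠ 1)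
    (hK : ∀ g : G, ∀ x ∈ K, ρ g * x * (ρ g)⁻¹ ∈ K)
    (hG' : ∀ g ∈ G', ∃ n : ℕ, ∀ x ∈ K, (ρ g) ^ ℓ ^ n * x = x * (ρ g) ^ ℓ ^ n) :
    nextK ℓ ρ G' K ≠ K := by
  classical
  -- the action of `G` on `K`
  have hN : ∀ g : G, ∀ x : A, x ∈ K ↔ ρ g * x * (ρ g)⁻¹ ∈ K := by
    intro g x
    refine ⟨hK g x, fun h => ?_⟩
    have := hK g⁻¹ _ h
    rw [map_inv] at this
    convert this using 1
    group
  let ac : G →* MulAut K :=
    { toFun := fun g =>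
        { toFun := fun x => ⟨ρ g * x * (ρ g)⁻¹, hK g x x.2⟩
          invFun := fun x => ⟨(ρ g)⁻¹ * x * ρ g, by
            have := hK g⁻¹ x x.2
            rwa [map_inv, inv_inv] at this⟩
          left_inv := fun x => Subtype.ext (by
            show (ρ g)⁻¹ * (ρ g * x * (ρ g)⁻¹) * ρ g = x
            group)
          right_inv := fun x => Subtype.ext (by
            show ρ g * ((ρ g)⁻¹ * x * ρ g) * (ρ g)⁻¹ = x
            group)
          map_mul' := fun x y => Subtype.ext (by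
            show ρ g * (x * y) * (ρ g)⁻¹ = (ρ g * x * (ρ g)⁻¹) * (ρ g * y * (ρ g)⁻¹)
            group) }
      map_one' := by
        ext x
        show ρ 1 * (x : A) * (ρ 1)⁻¹ = x
        rw [map_one]
        group
      map_mul' := by
        intro g h
        ext x
        show ρ (g * h) * (x : A) * (ρ (g * h))⁻¹ = ρ g * (ρ h * x * (ρ h)⁻¹) * (ρ g)⁻¹
        rw [map_mul]
        group }
  have hQ : IsPGroup ℓ (G'.map ac) := by
    rintro ⟨_, g, hg, rfl⟩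
    obtain ⟨n, hn⟩ := hG' g hg
    refine ⟨n, ?_⟩
    apply Subtype.ext
    show (ac g) ^ ℓ ^ n = 1
    rw [← map_pow]
    ext x
    show ρ (g ^ ℓ ^ n) * (x : A) * (ρ (g ^ ℓ ^ n))⁻¹ = x
    rw [map_pow, hn x x.2, mul_assoc, mul_inv_cancel, mul_one]
  obtain ⟨x₀, hx₀, hx₁⟩ := hne
  obtain ⟨P, hP, h1, h2, h3⟩ := exists_proper hℓ hp ⟨⟨x₀, hx₀⟩, fun h => hx₁ (congrArg Subtype.val h)⟩
    (G'.map ac) hQ
  intro hcon
  apply hP
  have h4 : nextK ℓ ρ G' K ≤ P.map K.subtype := by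
    refine (Subgroup.closure_le _).2 ?_
    rintro z ((⟨x, hx, y, hy, rfl⟩ | ⟨x, hx, rfl⟩) | ⟨g', hg', x, hx, rfl⟩)
    · exact ⟨_, h1 ⟨x, hx⟩ ⟨y, hy⟩, rfl⟩
    · exact ⟨_, h2 ⟨x, hx⟩, rfl⟩
    · exact ⟨_, h3 (ac g') ⟨g', hg', rfl⟩ ⟨x, hx⟩, rfl⟩
  rw [hcon] at h4
  rw [eq_top_iff]
  rintro ⟨x, hx⟩ -
  obtain ⟨y, hy, hyx⟩ := h4 hx
  have : y = ⟨x, hx⟩ := Subtype.ext hyx
  rwa [← this]

end

theorem at_aux (G A X : Type) [Group G] [Group A] [MulAction A X] (ℓ : ℕ) (hℓ : ℓ.Prime)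
    (ρ : G →* A) (Ω : Set X) (hΩ : ∀ g : G, ∀ ω ∈ Ω, ρ g • ω ∈ Ω)
    (G' : Subgroup G) (hG : G'.Normal)
    (D : Set G) (ω₀ : X) (h₀ : ω₀ ∈ Ω) (hD : ∀ d ∈ D, ρ d • ω₀ = ω₀)
    (hGD : ∀ g : G, ∃ h ∈ G', ∃ d ∈ D, g = h * d)
    (hyp : ∀ B : Subgroup G, B ≤ G' → (∀ a ∈ G', ∀ b ∈ G', a * b * a⁻¹ * b⁻¹ ∈ B) → (∀ a ∈ G', a ^ ℓ ∈ B) →
      (∀ a ∈ G', (∀ ω ∈ Ω, ρ a • ω = ω) → a ∈ B) →
      (∀ g : G, ∀ d ∈ D, g * d * g⁻¹ ∈ G' → g * d * g⁻¹ ∈ B) → B = G') :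
    ∀ (n : ℕ) (K : Subgroup A) (_ : Finite K), Nat.card K = n → IsPGroup ℓ K →
    (∀ g : G, ∀ x ∈ K, ρ g * x * (ρ g)⁻¹ ∈ K) →
    (∀ x ∈ K, ∀ ω ∈ Ω, x • ω = ω → x = 1) →
    (∀ g ∈ G', ∃ n : ℕ, ∀ x ∈ K, (ρ g) ^ ℓ ^ n * x = x * (ρ g) ^ ℓ ^ n) →
    (∀ g : G, ∃ x ∈ K, ρ g • ω₀ = x • ω₀) → ∀ g : G, ρ g • ω₀ = ω₀ := by
  intro n
  induction n using Nat.strong_induction_on with
  | _ n ih =>
  intro K hfin hcard hp hK hfree hG' hb
  by_cases hne : ∃ x ∈ K, x ≠ 1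
  swap
  · intro g
    obtain ⟨x, hx, hxg⟩ := hb g
    have : x = 1 := by
      by_contra hcon
      exact hne ⟨x, hx, hcon⟩
    rw [hxg, this, one_smul]
  have hle : nextK ℓ ρ G' K ≤ K := nextK_le hK
  have hne' : nextK ℓ ρ G' K ≠ K := nextK_ne hℓ hp hne hK hG'
  have hst := nextK_stable (ℓ := ℓ) hG hK
  have hlt : nextK ℓ ρ G' K < K := lt_of_le_of_ne hle hne'
  have hfin' : Finite (nextK ℓ ρ G' K) := Finite.of_injective _ (Subgroup.inclusion_injective hle)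
  have hcard' : Nat.card (nextK ℓ ρ G' K) < n := by
    rw [← hcard]
    exact Set.ncard_lt_ncard (SetLike.coe_ssubset_coe.2 hlt) (Set.toFinite (K : Set A))
  have hp' : IsPGroup ℓ (nextK ℓ ρ G' K) := hp.to_le hle
  refine ih _ hcard' _ hfin' rfl hp' hst (fun x hx => hfree x (hle hx))
    (fun g hg => (hG' g hg).imp fun n hn x hx => hn x (hle hx)) ?_
  -- the cocycle
  choose b hbK hb using hb
  have huniq : ∀ x ∈ K, ∀ y ∈ K, x • ω₀ = y • ω₀ → x = y := by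
    intro x hx y hy hxy
    have h1 : (y⁻¹ * x) • ω₀ = ω₀ := by rw [mul_smul, hxy, inv_smul_smul]
    have h2 := hfree _ (K.mul_mem (K.inv_mem hy) hx) ω₀ h₀ h1
    exact (inv_mul_eq_one.1 h2).symm
  have hbmul : ∀ g h : G, b (g * h) = (ρ g * b h * (ρ g)⁻¹) * b g := by
    intro g h
    refine huniq _ (hbK _) _ (K.mul_mem (hK g _ (hbK h)) (hbK g)) ?_
    rw [← hb, map_mul, mul_smul, hb h, mul_smul, ← hb g, mul_smul, mul_smul, inv_smul_smul]
  have hbone : ∀ g : G, ρ g • ω₀ = ω₀ → b g = 1 := by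
    intro g hg
    refine huniq _ (hbK _) _ K.one_mem ?_
    rw [← hb, hg, one_smul]
  set K' := nextK ℓ ρ G' K with hK'
  have hKn : (K'.subgroupOf K).Normal := by
    refine ⟨fun m hm g => ?_⟩
    have h1 : (g : A) * m * (g : A)⁻¹ * (m : A)⁻¹ ∈ K' := nextK_comm g.2 m.2
    have h2 : (m : A) ∈ K' := hm
    have h3 := K'.mul_mem h1 h2
    rw [inv_mul_cancel_right] at h3
    exact h3
  let π : K →* K ⧸ (K'.subgroupOf K) := QuotientGroup.mk' _
  have hπ : ∀ x : K, π x = 1 ↔ (x : A) ∈ K' := fun x => QuotientGroup.eq_one_iff x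
  have hπc : ∀ x y : K, π x * π y = π y * π x := by
    intro x y
    have h1 : π (x * y * x⁻¹ * y⁻¹) = 1 := (hπ _).2 (nextK_comm x.2 y.2)
    rw [map_mul, map_mul, map_mul, map_inv, map_inv] at h1
    rw [mul_inv_eq_one, mul_inv_eq_iff_eq_mul] at h1
    exact h1
  let β : G' →* K ⧸ (K'.subgroupOf K) :=
    { toFun := fun g => π ⟨b g, hbK g⟩
      map_one' := by
        refine (hπ _).2 ?_
        show b ((1 : G') : G) ∈ K'
        rw [hbone _ (by rw [Subgroup.coe_one, map_one, one_smul])]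
        exact K'.one_mem
      map_mul' := by
        intro g h
        have h1 : (⟨b ((g * h : G') : G), hbK _⟩ : K) =
            ⟨ρ g * b h * (ρ g)⁻¹ * (b h)⁻¹, K.mul_mem (hK g _ (hbK h)) (K.inv_mem (hbK h))⟩ *
              (⟨b h, hbK h⟩ * ⟨b g, hbK g⟩) := by
          apply Subtype.ext
          show b ((g : G) * h) = ρ g * b h * (ρ g)⁻¹ * (b h)⁻¹ * (b h * b g)
          rw [hbmul]
          group
        rw [h1, map_mul, (hπ _).2 (nextK_conj g.2 (hbK h)), one_mul, map_mul, hπc] }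
  let B : Subgroup G := β.ker.map G'.subtype
  have hBmem : ∀ g : G, ∀ hg : g ∈ G', b g ∈ K' → g ∈ B := by
    intro g hg hgb
    exact ⟨⟨g, hg⟩, (hπ _).2 hgb, rfl⟩
  have hB : B = G' := by
    refine hyp B ?_ ?_ ?_ ?_ ?_
    · rintro _ ⟨g, -, rfl⟩
      exact g.2
    · intro a ha c hc
      refine ⟨⟨a, ha⟩ * ⟨c, hc⟩ * ⟨a, ha⟩⁻¹ * ⟨c, hc⟩⁻¹, ?_, rfl⟩
      show β _ = 1
      rw [map_mul, map_mul, map_mul, map_inv, map_inv, mul_inv_eq_one, mul_inv_eq_iff_eq_mul]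
      exact hπc _ _
    · intro a ha
      refine ⟨⟨a, ha⟩ ^ ℓ, ?_, rfl⟩
      show β _ = 1
      rw [map_pow]
      show π ⟨b a, hbK a⟩ ^ ℓ = 1
      rw [← map_pow]
      exact (hπ _).2 (nextK_pow (hbK a))
    · intro a ha haω
      refine hBmem a ha ?_
      rw [hbone a (haω ω₀ h₀)]
      exact K'.one_mem
    · intro g d hd hgd
      refine hBmem _ hgd ?_
      have e1 : b (g * d * g⁻¹) = ρ (g * d * g⁻¹) * (ρ g * b g⁻¹ * (ρ g)⁻¹) * (ρ (g * d * g⁻¹))⁻¹ *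
          (ρ g * b g⁻¹ * (ρ g)⁻¹)⁻¹ := by
        have e2 : b (g * g⁻¹) = 1 := hbone _ (by rw [mul_inv_cancel, map_one, one_smul])
        rw [hbmul] at e2
        have e3 : b g = (ρ g * b g⁻¹ * (ρ g)⁻¹)⁻¹ := by
          rw [eq_comm, inv_eq_iff_mul_eq_one]
          exact e2
        have e4 : b d = 1 := hbone d (hD d hd)
        rw [hbmul (g * d) g⁻¹, hbmul g d, e4, e3]
        simp only [map_mul, map_inv]
        group
      rw [e1]
      exact nextK_conj hgd (hK g _ (hbK _))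
  have hbG : ∀ g ∈ G', b g ∈ K' := by
    intro g hg
    rw [← hB] at hg
    obtain ⟨x, hx, rfl⟩ := hg
    exact (hπ _).1 hx
  intro g
  refine ⟨b g, ?_, hb g⟩
  obtain ⟨h, hh, d, hd, rfl⟩ := hGD g
  rw [hbmul, hbone d (hD d hd), mul_one, mul_inv_cancel, one_mul]
  exact hbG h hh

/-- BLOCK AT -/
theorem stmtAT : StmtAT := by
  intro G A X _ _ _ ℓ hℓ ρ H hfin hp hn Ω hΩ hΩH hfree htr G' hG hG' D ω₀ h₀ hD hGD hyp
  refine at_aux G A X ℓ hℓ ρ Ω hΩ G' hG D ω₀ h₀ hD hGD hyp _ H hfin rfl hp hn hfree hG' ?_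
  intro g
  obtain ⟨x, hx, hxg⟩ := htr ω₀ h₀ (ρ g • ω₀) (hΩ g ω₀ h₀)
  exact ⟨x, hx, hxg.symm⟩

end Pool.Agent.FFS
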